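import Pool.Agent.H32.AkA

namespace Pool.Agent.Results.MP_165503_lc.Linear

open Pool.Agent.H32.Ak

theorem result : ∃ C D : ℝ, 0 < C ∧ 0 < D ∧ ∀ n k : ℕ, 1 ≤ n → D * n ≤ k →
    ∀ (Q A : Type) [Fintype Q] [Fintype A] [Nonempty A] (δ : Q → A → Q), Fintype.card Q = n →
      AK δ k → ∃ w, Reset δ w ∧ (w.length : ℝ) ≤ C * n := by
  refine ⟨1, 1, one_pos, one_pos, fun n k hn hk Q A _ _ _ δ hQ h => ?_⟩
  have : Nonempty Q := Fintype.card_pos_iff.1 (by omega)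
  have hk : n ≤ k := by exact_mod_cast (one_mul (n : ℝ) ▸ hk)
  obtain ⟨w, a, b⟩ := main h (by simp [hQ]; omega)
  exact ⟨w, a, by simpa [hQ] using b.le⟩

end Pool.Agent.Results.MP_165503_lc.Linear
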